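import Pool.Agent.K1H88.T3.Stm
import Pool.Agent.K1H81.TT.Inv

/-!
Project T3, piece INV: `w` times the two Möbius functions is locally constant.
-/

set_option autoImplicit false

namespace Pool.Agent.K1H88.T3

open Finset
open Pool.Agent.K1H81.TT (QQ gg mm)

namespace INV

open Pool.Agent.K1H81.TT.INV (Nice cof_sqfree cof_coprime mu_prod cast_pow_dvd gcd_eq)

theorem ch3_mul (x y : ℕ) : ch3 (x * y) = ch3 x * ch3 y := by
  unfold ch3
  have hx : x % 3 = 0 ∨ x % 3 = 1 ∨ x % 3 = 2 := by omega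
  have hy : y % 3 = 0 ∨ y % 3 = 1 ∨ y % 3 = 2 := by omega
  rw [Nat.mul_mod]
  rcases hx with h | h | h <;> rcases hy with h' | h' | h' <;> rw [h, h'] <;> norm_num

theorem ch3_prod (s : Finset ℕ) : ch3 (∏ p ∈ s, p) = ∏ p ∈ s, ch3 p := by
  classical
  induction s using Finset.induction_on with
  | empty => simp [ch3]
  | insert a s ha ih => rw [prod_insert ha, ch3_mul, ih, prod_insert ha]

theorem ch3_sq {x : ℕ} (h : ¬ 3 ∣ x) : ch3 x ^ 2 = 1 := by
  unfold ch3
  have hx : x % 3 = 1 ∨ x % 3 = 2 := by omega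
  rcases hx with h | h <;> rw [h] <;> norm_num

theorem not_three {a b : ℤ} (h : Adm a b) : ¬ 3 ∣ (EE a b).natAbs := by
  intro h3
  rw [← Int.natCast_dvd] at h3
  have h4 : (3 : ℤ) ∣ a ^ 3 := by
    have h5 : (3 : ℤ) ∣ EE a b + 27 * b := dvd_add (by exact_mod_cast h3) ⟨9 * b, by ring⟩
    unfold EE at h5
    have e : a ^ 3 - 27 * b + 27 * b = a ^ 3 := by ring
    rwa [e] at h5
  exact h.1 (Int.prime_three.dvd_of_dvd_pow h4)

theorem nice_b {y K : ℕ} {a b : ℤ} (hA : Adm a b) (hB : ¬ Bad y K a b) : Nice y K b.natAbs := by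
  refine ⟨Int.natAbs_ne_zero.2 hA.2.1, fun p hp h h' => hB ⟨p, hp, Or.inl ⟨h, Or.inl ?_⟩⟩,
    fun p hp h h' => hB ⟨p, hp, Or.inr ⟨h, Or.inl ?_⟩⟩⟩
  · exact cast_pow_dvd.2 h'
  · exact cast_pow_dvd.2 h'

theorem nice_E {y K : ℕ} {a b : ℤ} (hA : Adm a b) (hB : ¬ Bad y K a b) :
    Nice y K (EE a b).natAbs := by
  refine ⟨Int.natAbs_ne_zero.2 hA.2.2.1,
    fun p hp h h' => hB ⟨p, hp, Or.inl ⟨h, Or.inr (Or.inl ?_)⟩⟩,
    fun p hp h h' => hB ⟨p, hp, Or.inr ⟨h, Or.inr ?_⟩⟩⟩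
  · exact cast_pow_dvd.2 h'
  · exact cast_pow_dvd.2 h'

theorem formula {y K : ℕ} {a b : ℤ} (hA : Adm a b) (hB : ¬ Bad y K a b) :
    w a b * mm y K b * mm y K (EE a b) =
      -((∏ _p ∈ (gg y K b).primeFactors, (-1 : ℤ)) *
        (∏ p ∈ (gg y K (EE a b)).primeFactors, (-ch3 p)) *
        ch3 (gg y K (EE a b)) * ch3 (EE a b).natAbs) := by
  have hD := nice_b hA hB
  have hE := nice_E hA hB
  obtain ⟨g, hg⟩ : ∃ g, g = gg y K b := ⟨_, rfl⟩
  obtain ⟨h, hh⟩ : ∃ h, h = gg y K (EE a b) := ⟨_, rfl⟩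
  obtain ⟨m, hm⟩ : ∃ m, m = b.natAbs / g := ⟨_, rfl⟩
  obtain ⟨n, hn⟩ : ∃ n, n = (EE a b).natAbs / h := ⟨_, rfl⟩
  have hgD : g ∣ b.natAbs := by rw [hg]; exact Nat.gcd_dvd_left _ _
  have hhE : h ∣ (EE a b).natAbs := by rw [hh]; exact Nat.gcd_dvd_left _ _
  have e1 : b.natAbs = g * m := by rw [hm, Nat.mul_div_cancel' hgD]
  have e2 : (EE a b).natAbs = h * n := by rw [hn, Nat.mul_div_cancel' hhE]
  have sm : Squarefree m := by rw [hm, hg]; exact cof_sqfree hD
  have sn : Squarefree n := by rw [hn, hh]; exact cof_sqfree hE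
  have cgm : Nat.Coprime g m := by rw [hm, hg]; exact cof_coprime hD
  have chn : Nat.Coprime h n := by rw [hn, hh]; exact cof_coprime hE
  have mum : mm y K b = ArithmeticFunction.moebius m := by
    unfold mm
    rw [← hg, ← hm]
  have mun : mm y K (EE a b) = ArithmeticFunction.moebius n := by
    unfold mm
    rw [← hh, ← hn]
  have sq1 : ArithmeticFunction.moebius m ^ 2 = 1 :=
    ArithmeticFunction.moebius_sq_eq_one_of_squarefree sm
  have sq2 : ArithmeticFunction.moebius n ^ 2 = 1 :=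
    ArithmeticFunction.moebius_sq_eq_one_of_squarefree sn
  have p1 : ∏ _p ∈ b.natAbs.primeFactors, (-1 : ℤ) =
      (∏ _p ∈ g.primeFactors, (-1 : ℤ)) * ArithmeticFunction.moebius m := by
    rw [e1, cgm.primeFactors_mul, prod_union cgm.disjoint_primeFactors]
    have h1 := mu_prod sm (fun _ => 1)
    rw [prod_const_one, mul_one] at h1
    rw [h1]
  have p2 : ∏ p ∈ (EE a b).natAbs.primeFactors, (-ch3 p) =
      (∏ p ∈ h.primeFactors, (-ch3 p)) * (ArithmeticFunction.moebius n * ch3 n) := by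
    rw [e2, chn.primeFactors_mul, prod_union chn.disjoint_primeFactors, mu_prod sn (fun p => ch3 p)]
    congr 2
    conv_rhs => rw [← Nat.prod_primeFactors_of_squarefree sn]
    rw [ch3_prod]
  have h3 : ¬ 3 ∣ h := fun h4 => not_three hA (h4.trans hhE)
  have q1 := ch3_sq h3
  have r1 : ch3 (EE a b).natAbs = ch3 h * ch3 n := by rw [e2, ch3_mul]
  rw [r1, ← hg, ← hh, mum, mun]
  unfold w
  rw [p1, p2]
  generalize (∏ _p ∈ g.primeFactors, (-1 : ℤ)) = G1
  generalize (∏ p ∈ h.primeFactors, (-ch3 p)) = G2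
  generalize ch3 h = c at *
  generalize ch3 n = d' at *
  generalize ArithmeticFunction.moebius m = u at *
  generalize ArithmeticFunction.moebius n = v at *
  calc -(G1 * u * (G2 * (v * d'))) * u * v = -(G1 * G2 * d') * (u ^ 2 * v ^ 2) := by ring
    _ = -(G1 * G2 * d') * c ^ 2 := by rw [sq1, sq2, q1, one_mul]
    _ = _ := by ring

end INV

open INV in
theorem t_INV : S_INV := by
  intro y K _
  refine ⟨?_, ?_⟩
  · intro a b hA hB
    exact ⟨ArithmeticFunction.moebius_sq_eq_one_of_squarefree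
        (Pool.Agent.K1H81.TT.INV.cof_sqfree (nice_b hA hB)),
      ArithmeticFunction.moebius_sq_eq_one_of_squarefree
        (Pool.Agent.K1H81.TT.INV.cof_sqfree (nice_E hA hB))⟩
  · intro a b a' b' hA hA' hB hB' haa hbb s1 s2
    have hEE : EE a b ≡ EE a' b' [ZMOD (24 * QQ y K : ℕ)] := by
      unfold EE
      exact (haa.pow 3).sub (hbb.mul_left 27)
    rw [formula hA hB, formula hA' hB']
    have g1 := Pool.Agent.K1H81.TT.INV.gcd_eq hbb
    have g2 := Pool.Agent.K1H81.TT.INV.gcd_eq hEE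
    have h3 : ch3 (EE a b).natAbs = ch3 (EE a' b').natAbs := by
      have h1 : ((3 : ℕ) : ℤ) ∣ ((24 * QQ y K : ℕ) : ℤ) :=
        Int.natCast_dvd_natCast.2 ⟨8 * QQ y K, by ring⟩
      have h2 := h1.trans hEE.dvd
      have h5 : (EE a b).natAbs % 3 = (EE a' b').natAbs % 3 := by
        have e1 := hA.2.2.1
        have e2 := hA'.2.2.1
        generalize EE a b = X at *
        generalize EE a' b' = Y at *
        by_cases hX : 0 < X
        · have hY := s2.1 hX
          omega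
        · have hY : ¬ 0 < Y := fun h => hX (s2.2 h)
          omega
      unfold ch3
      rw [h5]
    rw [g1, g2, h3]

end Pool.Agent.K1H88.T3
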